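import Mathlib

set_option autoImplicit false

namespace Pool.Agent.Results.MP_e6c168_lc.Sublinear

def cost {K : ℕ} (P : Fin (K + 1) → Equiv.Perm (Fin (K + 1))) (i : Fin (K + 1)) : ℕ :=
  (Finset.univ.filter fun p : Fin K × Fin (K + 1) =>
    ∃ n, P n p.1.castSucc = i ∧ P n p.1.succ = p.2).card

def sig {k : ℕ} (n : Fin (k + 1) × Fin (k + 1)) : Equiv.Perm (Fin (k + 1) × Fin (k + 1)) where
  toFun d := (n.1 + d.1 + 1, if d.1 = -1 then n.2 + d.2 + 1 else d.2)
  invFun p := (p.1 - n.1 - 1, if p.1 = n.1 then p.2 - n.2 - 1 else p.2)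
  left_inv := by
    rintro ⟨x, y⟩
    have : n.1 + x + 1 = n.1 ↔ x = -1 := by rw [add_assoc, add_eq_left, add_eq_zero_iff_eq_neg]
    simp only [this, Prod.mk.injEq]
    refine ⟨by abel, ?_⟩
    split_ifs
    · abel
    · rfl
  right_inv := by
    rintro ⟨x, y⟩
    have : x - n.1 - 1 = -1 ↔ x = n.1 := by rw [sub_eq_neg_self, sub_eq_zero]
    simp only [this, Prod.mk.injEq]
    refine ⟨by abel, ?_⟩
    split_ifs
    · abel
    · rfl

theorem small (k : ℕ) : ∃ P : Fin (k * (k + 2) + 1) → Equiv.Perm (Fin (k * (k + 2) + 1)),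
    (∀ n, P n (Fin.last _) = n) ∧ ∀ i, cost P i ≤ 3 * (k + 1) := by
  let e : Fin (k * (k + 2) + 1) ≃ Fin (k + 1) × Fin (k + 1) :=
    (finCongr (by ring)).trans finProdFinEquiv.symm
  have e1 : ∀ d, ((e d).1 : ℕ) = d / (k + 1) := fun d => rfl
  have e2 : ∀ d, ((e d).2 : ℕ) = d % (k + 1) := fun d => rfl
  have m1 : ∀ x : Fin (k + 1), x = -1 ↔ (x : ℕ) = k := fun x => by
    rw [Fin.ext_iff, Fin.coe_neg_one]
  have el : e (Fin.last _) = (-1, -1) := by
    have : k * (k + 2) = k + (k + 1) * k := by ring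
    refine Prod.ext ((m1 _).2 ?_) ((m1 _).2 ?_)
    · rw [e1, Fin.val_last, this, Nat.add_mul_div_left _ _ (by omega), Nat.div_eq_of_lt (by omega)]
      simp
    · rw [e2, Fin.val_last, this, Nat.add_mul_mod_self_left, Nat.mod_eq_of_lt (by omega)]
  refine ⟨fun n => e.trans ((sig (e n)).trans e.symm), fun n => by simp [el, sig], fun i => ?_⟩
  rw [show 3 * (k + 1) = (Finset.univ : Finset (Fin 3 × Fin (k + 1))).card by simp]
  refine Finset.card_le_card_of_injOn (fun p => if (e p.1.castSucc).1 = -1 then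
    (0, (e p.1.castSucc).2) else if (e p.1.succ).1 = -1 then (1, (e p.2).2)
      else (2, (e p.1.castSucc).1)) (fun _ _ => by simp) ?_
  rintro ⟨d, j⟩ h ⟨d', j'⟩ h' t
  simp only [Finset.coe_filter, Finset.mem_univ, true_and, Set.mem_setOf_eq, Equiv.trans_apply,
    Equiv.symm_apply_eq, sig, Equiv.coe_fn_mk, Prod.ext_iff] at h h' t
  obtain ⟨n, ⟨a1, a2⟩, a3, a4⟩ := h
  obtain ⟨n', ⟨b1, b2⟩, b3, b4⟩ := h'
  have fin : d = d' → ((e d.succ).1 = -1 → (e d.castSucc).1 ≠ -1 → (e j).2 = (e j').2) →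
      (d, j) = (d', j') := by
    rintro rfl k
    have g : (e n).1 = (e n').1 := by simpa using a1.trans b1.symm
    refine Prod.ext rfl (e.injective (Prod.ext (by rw [← a3, ← b3, g]) ?_))
    by_cases c : (e d.succ).1 = -1
    · by_cases c' : (e d.castSucc).1 = -1
      · rw [if_pos c'] at a2 b2
        have g' : (e n).2 = (e n').2 := by simpa using a2.trans b2.symm
        rw [← a4, ← b4, g']
      · exact k c c'
    · rw [← a4, ← b4, if_neg c, if_neg c]
  have inj : e d.castSucc = e d'.castSucc → d = d' := fun h =>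
    Fin.castSucc_injective _ (e.injective h)
  split_ifs at t with c1 c2 c3 c4 c5 c6 c7 c8 <;> try (exfalso; have := t.1; simp at this; done)
  · exact fin (inj (Prod.ext (c1.trans c2.symm) t.2)) fun _ k => absurd c1 k
  · refine fin (Fin.ext ?_) fun _ _ => t.2
    rw [m1, e1] at c1 c4 c5 c6
    simp only [Fin.val_castSucc, Fin.val_succ] at c1 c4 c5 c6
    have u : ∀ x : ℕ, ¬ x / (k + 1) = k → (x + 1) / (k + 1) = k → x + 1 = k * (k + 1) := by
      intro x h1 h2
      have h3 := h2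
      rw [Nat.succ_div] at h3
      split_ifs at h3 with q
      · rw [← Nat.div_mul_cancel q, h2]
      · omega
    have := u _ c1 c4
    have := u _ c5 c6
    omega
  · rw [if_neg c1] at a2
    rw [if_neg c7] at b2
    exact fin (inj (Prod.ext t.2 (a2.trans b2.symm))) fun k _ => absurd k c4

theorem result : ¬ ∃ c : ℝ, 0 < c ∧ ∃ N₀ : ℕ, ∀ K : ℕ, N₀ ≤ K + 1 →
    ∀ P : Fin (K + 1) → Equiv.Perm (Fin (K + 1)), (∀ n, P n (Fin.last K) = n) →
      ∃ i, c * ((K + 1 : ℕ) : ℝ) ≤ cost P i := by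
  rintro ⟨c, hc, N₀, h⟩
  obtain ⟨m, hm⟩ := exists_nat_gt (3 / c)
  obtain ⟨P, h1, h2⟩ := small (m + N₀)
  obtain ⟨i, hi⟩ := h _ (by nlinarith) P h1
  have a : (cost P i : ℝ) ≤ 3 * (m + N₀ + 1) := by exact_mod_cast h2 i
  rw [div_lt_iff₀ hc] at hm
  push_cast at hi
  have : (0 : ℝ) ≤ N₀ := Nat.cast_nonneg _
  have : (0 : ℝ) ≤ m := Nat.cast_nonneg _
  have e : c * ((m + N₀) * (m + N₀ + 2) + 1) = (c * (m + N₀ + 1)) * (m + N₀ + 1) := by ring
  have : 3 * ((m : ℝ) + N₀ + 1) < (c * (m + N₀ + 1)) * (m + N₀ + 1) :=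
    mul_lt_mul_of_pos_right (by nlinarith) (by positivity)
  linarith

end Pool.Agent.Results.MP_e6c168_lc.Sublinear
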